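import Pool.Agent.U581.LB.Stm
import Pool.Agent.H383.LinIndep

/-! Project LQ (helper581), package LOW: sums of square roots are not too small. -/

set_option autoImplicit false

namespace Pool.Agent.U59.LB

open Polynomial Finset

/-- shifting an integer polynomial by `± y`, `y² ∈ ℤ` -/
theorem shift (y : ℝ) (m : ℤ) (hy : y ^ 2 = m) (G : ℤ[X]) : ∃ A B : ℤ[X], ∀ t : ℝ,
    aeval (t + y) G = aeval t A + y * aeval t B ∧ aeval (t - y) G = aeval t A - y * aeval t B := by
  induction G using Polynomial.induction_on' with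
  | add p q hp hq =>
    obtain ⟨A, B, h⟩ := hp
    obtain ⟨A', B', h'⟩ := hq
    refine ⟨A + A', B + B', fun t => ?_⟩
    simp only [map_add]
    rw [(h t).1, (h t).2, (h' t).1, (h' t).2]
    constructor <;> ring
  | monomial n a =>
    have key : ∀ n : ℕ, ∃ A B : ℤ[X], ∀ t : ℝ,
        (t + y) ^ n = aeval t A + y * aeval t B ∧ (t - y) ^ n = aeval t A - y * aeval t B := by
      intro n
      induction n with
      | zero => exact ⟨1, 0, fun t => by simp⟩
      | succ n ih =>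
        obtain ⟨A, B, h⟩ := ih
        refine ⟨A * X + C m * B, A + B * X, fun t => ?_⟩
        simp only [map_add, map_mul, aeval_X, aeval_C, pow_succ, (h t).1, (h t).2, algebraMap_int_eq,
          Int.coe_castRingHom]
        rw [← hy]
        constructor <;> ring
    obtain ⟨A, B, h⟩ := key n
    refine ⟨C a * A, C a * B, fun t => ?_⟩
    simp only [aeval_monomial, map_mul, aeval_C, (h t).1, (h t).2]
    constructor <;> ring

/-- the product over all the sign patterns -/
noncomputable def F (y : ℕ → ℝ) (S : Finset ℕ) (t : ℝ) : ℝ :=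
  ∏ η ∈ S.powerset, (t + ∑ q ∈ S, (if q ∈ η then -1 else 1) * y q)

theorem F_insert (y : ℕ → ℝ) {S : Finset ℕ} {a : ℕ} (ha : a ∉ S) (t : ℝ) :
    F y (insert a S) t = F y S (t + y a) * F y S (t - y a) := by
  unfold F
  rw [prod_powerset_insert ha]
  congr 1
  · refine prod_congr rfl fun η hη => ?_
    have h1 : a ∉ η := fun h => ha (mem_powerset.1 hη h)
    rw [sum_insert ha, if_neg h1]
    ring
  · refine prod_congr rfl fun η hη => ?_
    rw [sum_insert ha, if_pos (mem_insert_self a η)]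
    have h2 : ∑ q ∈ S, (if q ∈ insert a η then (-1 : ℝ) else 1) * y q =
        ∑ q ∈ S, (if q ∈ η then (-1 : ℝ) else 1) * y q := by
      refine sum_congr rfl fun q hq => ?_
      have h3 : q ≠ a := fun h => ha (h ▸ hq)
      simp [mem_insert, h3]
    rw [h2]
    ring

theorem F_poly (y : ℕ → ℝ) (hy : ∀ q, ∃ m : ℤ, y q ^ 2 = m) (S : Finset ℕ) :
    ∃ G : ℤ[X], ∀ t : ℝ, F y S t = aeval t G := by
  induction S using Finset.induction_on with
  | empty => exact ⟨X, fun t => by simp [F]⟩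
  | insert a S ha ih =>
    obtain ⟨G, hG⟩ := ih
    obtain ⟨m, hm⟩ := hy a
    obtain ⟨A, B, h⟩ := shift (y a) m hm G
    refine ⟨A * A - C m * (B * B), fun t => ?_⟩
    rw [F_insert y ha, hG, hG, (h t).1, (h t).2]
    simp only [map_sub, map_mul, aeval_C, algebraMap_int_eq, Int.coe_castRingHom]
    rw [← hm]
    ring

/-- the product is an integer -/
theorem F_int (y : ℕ → ℝ) (hy : ∀ q, ∃ m : ℤ, y q ^ 2 = m) (S : Finset ℕ) :
    ∃ z : ℤ, F y S 0 = z := by
  obtain ⟨G, hG⟩ := F_poly y hy S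
  refine ⟨G.coeff 0, ?_⟩
  rw [hG 0, ← coeff_zero_eq_aeval_zero' G]
  simp

theorem sqrt_eq (n : ℕ) : √(n : ℝ) = (Pool.Agent.U581.LB.rt n : ℝ) * √(Pool.Agent.U581.LB.sf n : ℝ) := by
  conv_lhs => rw [← Pool.Agent.U581.LB.rt_sf n]
  push_cast
  rw [Real.sqrt_mul (by positivity), Real.sqrt_sq (by positivity)]

/-- no relation between the square roots of distinct squarefree numbers -/
theorem comb_ne_zero (S : Finset ℕ) (hS : ∀ q ∈ S, Squarefree q) (hne : S.Nonempty) (b : ℕ → ℤ)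
    (hb : ∀ q ∈ S, b q ≠ 0) : ∑ q ∈ S, (b q : ℝ) * √(q : ℝ) ≠ 0 := by
  classical
  intro h0
  obtain ⟨q0, hq0⟩ := hne
  have h1 := Pool.Agent.H383.Gauss.sf_indep
  rw [linearIndependent_iff'] at h1
  let emb : {q // q ∈ S} ↪ {s : ℕ // Squarefree s} := ⟨fun q => ⟨q.1, hS q.1 q.2⟩,
    fun q q' h => Subtype.ext (congrArg (fun z : {s : ℕ // Squarefree s} => z.1) h)⟩
  have h2 := h1 (S.attach.map emb) (fun s => (b s.1 : ℚ)) ?_ ⟨q0, hS q0 hq0⟩ ?_
  · exact hb q0 hq0 (by exact_mod_cast h2)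
  · rw [sum_map]
    rw [← sum_attach S] at h0
    rw [← h0]
    refine sum_congr rfl fun q _ => ?_
    simp [Rat.smul_def, emb]
  · rw [mem_map]
    exact ⟨⟨q0, hq0⟩, mem_attach _ _, rfl⟩

theorem low (k N : ℕ) (n : Fin k → ℕ) (e : Fin k → ℤ) (hk : 1 ≤ k) (hN : 1 ≤ N)
    (hn : ∀ i, 1 ≤ n i ∧ n i ≤ N) (he : ∀ i, e i = 1 ∨ e i = -1) :
    (∀ q : ℕ, ∑ i ∈ Finset.univ.filter (fun i => Pool.Agent.U581.LB.sf (n i) = q),
      e i * (Pool.Agent.U581.LB.rt (n i) : ℤ) = 0) ∨
    1 / ((k : ℝ) * N) ^ (2 ^ k) ≤ |∑ i, (e i : ℝ) * √(n i)| := by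
  classical
  set b : ℕ → ℤ := fun q => ∑ i ∈ univ.filter (fun i => Pool.Agent.U581.LB.sf (n i) = q),
    e i * (Pool.Agent.U581.LB.rt (n i) : ℤ) with hb
  by_cases hall : ∀ q, b q = 0
  · exact Or.inl hall
  right
  push Not at hall
  obtain ⟨q0, hq0⟩ := hall
  set Q : Finset ℕ := univ.image fun i => Pool.Agent.U581.LB.sf (n i) with hQ
  set S : Finset ℕ := Q.filter fun q => b q ≠ 0 with hS
  have hbQ : ∀ q, q ∉ Q → b q = 0 := by
    intro q hq
    rw [hb]
    refine Finset.sum_eq_zero fun i hi => ?_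
    exact absurd (mem_image.2 ⟨i, mem_univ i, (mem_filter.1 hi).2⟩) hq
  have hq0S : q0 ∈ S := mem_filter.2 ⟨by
    by_contra h
    exact hq0 (hbQ q0 h), hq0⟩
  have hSsf : ∀ q ∈ S, Squarefree q := by
    intro q hq
    obtain ⟨i, _, rfl⟩ := mem_image.1 (mem_filter.1 hq).1
    exact Pool.Agent.U581.LB.sf_sqf _
  have hScard : #S ≤ k := by
    refine (card_filter_le _ _).trans (card_image_le.trans ?_)
    rw [card_univ, Fintype.card_fin]
  -- the sum
  have hsum : ∑ i, (e i : ℝ) * √(n i) = ∑ q ∈ S, (b q : ℝ) * √(q : ℝ) := by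
    have h1 : ∑ q ∈ S, (b q : ℝ) * √(q : ℝ) = ∑ q ∈ Q, (b q : ℝ) * √(q : ℝ) := by
      rw [hS]
      refine sum_filter_of_ne fun q _ h hbq => ?_
      rw [hbq] at h
      simp at h
    rw [h1, hQ, ← sum_fiberwise_of_maps_to (s := univ)
      (t := univ.image fun i => Pool.Agent.U581.LB.sf (n i))
      (g := fun i => Pool.Agent.U581.LB.sf (n i)) fun i _ => mem_image_of_mem _ (mem_univ i)]
    refine sum_congr rfl fun q _ => ?_
    rw [hb]
    push_cast
    rw [sum_mul]
    refine sum_congr rfl fun i hi => ?_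
    rw [sqrt_eq (n i), (mem_filter.1 hi).2]
    ring
  set W : ℝ := (k : ℝ) * N with hW
  have hk1 : (1 : ℝ) ≤ k := by exact_mod_cast hk
  have hN1 : (1 : ℝ) ≤ N := by exact_mod_cast hN
  have hW1 : 1 ≤ W := by
    rw [hW]
    nlinarith
  -- bound for all the factors
  have hfac : ∀ η : Finset ℕ, |0 + ∑ q ∈ S, (if q ∈ η then (-1 : ℝ) else 1) * ((b q : ℝ) * √(q : ℝ))|
      ≤ W := by
    intro η
    rw [zero_add]
    calc |∑ q ∈ S, (if q ∈ η then (-1 : ℝ) else 1) * ((b q : ℝ) * √(q : ℝ))|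
        ≤ ∑ q ∈ S, |(if q ∈ η then (-1 : ℝ) else 1) * ((b q : ℝ) * √(q : ℝ))| :=
          abs_sum_le_sum_abs _ _
      _ ≤ ∑ q ∈ S, ∑ i ∈ univ.filter (fun i => Pool.Agent.U581.LB.sf (n i) = q), √(n i : ℝ) := by
          refine sum_le_sum fun q _ => ?_
          have h1 : |(if q ∈ η then (-1 : ℝ) else 1)| = 1 := by split_ifs <;> simp
          rw [abs_mul, h1, one_mul, abs_mul, abs_of_nonneg (Real.sqrt_nonneg _)]
          have h2 : |(b q : ℝ)| ≤ ∑ i ∈ univ.filter (fun i => Pool.Agent.U581.LB.sf (n i) = q),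
              (Pool.Agent.U581.LB.rt (n i) : ℝ) := by
            rw [hb]
            push_cast
            refine (abs_sum_le_sum_abs _ _).trans (sum_le_sum fun i _ => ?_)
            rw [abs_mul, Nat.abs_cast]
            rcases he i with h | h <;> rw [h] <;> simp
          calc |(b q : ℝ)| * √(q : ℝ)
              ≤ (∑ i ∈ univ.filter (fun i => Pool.Agent.U581.LB.sf (n i) = q),
                (Pool.Agent.U581.LB.rt (n i) : ℝ)) * √(q : ℝ) :=
                mul_le_mul_of_nonneg_right h2 (Real.sqrt_nonneg _)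
            _ = _ := by
                rw [sum_mul]
                refine sum_congr rfl fun i hi => ?_
                rw [sqrt_eq (n i), (mem_filter.1 hi).2]
      _ ≤ ∑ q ∈ Q, ∑ i ∈ univ.filter (fun i => Pool.Agent.U581.LB.sf (n i) = q), √(n i : ℝ) :=
          sum_le_sum_of_subset_of_nonneg (filter_subset _ _) fun q _ _ =>
            sum_nonneg fun i _ => Real.sqrt_nonneg _
      _ = ∑ i, √(n i : ℝ) := by
          rw [hQ]
          exact sum_fiberwise_of_maps_to (fun i _ => mem_image_of_mem _ (mem_univ i)) _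
      _ ≤ ∑ _i : Fin k, (N : ℝ) := by
          refine sum_le_sum fun i _ => ?_
          have h1 : (1 : ℝ) ≤ n i := by exact_mod_cast (hn i).1
          have h2 : (n i : ℝ) ≤ N := by exact_mod_cast (hn i).2
          refine le_trans ?_ h2
          rw [Real.sqrt_le_left (by linarith)]
          nlinarith
      _ = W := by
          rw [sum_const, card_univ, Fintype.card_fin, nsmul_eq_mul]
  -- all the factors are not zero
  have hnz : ∀ η : Finset ℕ, 0 + ∑ q ∈ S, (if q ∈ η then (-1 : ℝ) else 1) *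
      ((b q : ℝ) * √(q : ℝ)) ≠ 0 := by
    intro η
    rw [zero_add]
    have h1 := comb_ne_zero S hSsf ⟨q0, hq0S⟩ (fun q => (if q ∈ η then -1 else 1) * b q) ?_
    · convert h1 using 1
      refine sum_congr rfl fun q _ => ?_
      push_cast
      split_ifs <;> ring
    · intro q hq
      refine mul_ne_zero ?_ (mem_filter.1 hq).2
      split_ifs <;> norm_num
  obtain ⟨z, hz⟩ := F_int (fun q => (b q : ℝ) * √(q : ℝ)) (fun q => ⟨b q ^ 2 * q, by
    rw [mul_pow, Real.sq_sqrt (by positivity)]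
    push_cast
    ring⟩) S
  have hz0 : z ≠ 0 := by
    intro h
    rw [h, Int.cast_zero, F, prod_eq_zero_iff] at hz
    obtain ⟨η, _, h1⟩ := hz
    exact hnz η h1
  have hF1 : (1 : ℝ) ≤ |F (fun q => (b q : ℝ) * √(q : ℝ)) S 0| := by
    rw [hz]
    have := Int.one_le_abs hz0
    exact_mod_cast this
  rw [F, abs_prod, ← mul_prod_erase _ _ (empty_mem_powerset S)] at hF1
  have hprod : ∏ η ∈ S.powerset.erase ∅, |0 + ∑ q ∈ S, (if q ∈ η then (-1 : ℝ) else 1) *
      ((b q : ℝ) * √(q : ℝ))| ≤ W ^ (2 ^ k) := by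
    calc _ ≤ ∏ _η ∈ S.powerset.erase ∅, W :=
          prod_le_prod (fun η _ => abs_nonneg _) fun η _ => hfac η
      _ = W ^ #(S.powerset.erase ∅) := by rw [prod_const]
      _ ≤ W ^ (2 ^ k) := by
          refine pow_le_pow_right₀ hW1 ?_
          rw [card_erase_of_mem (empty_mem_powerset S), card_powerset]
          exact (Nat.sub_le _ _).trans (Nat.pow_le_pow_right (by norm_num) hScard)
  have hempty : ∑ q ∈ S, (if q ∈ (∅ : Finset ℕ) then (-1 : ℝ) else 1) * ((b q : ℝ) * √(q : ℝ)) =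
      ∑ i, (e i : ℝ) * √(n i) := by
    rw [hsum]
    refine sum_congr rfl fun q _ => ?_
    simp
  rw [hempty, zero_add] at hF1
  rw [div_le_iff₀ (pow_pos (by linarith) _)]
  exact hF1.trans (mul_le_mul_of_nonneg_left hprod (abs_nonneg _))

end Pool.Agent.U59.LB
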