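import Pool.Agent.U581.LB.StmQ
import Pool.Agent.U59.LB.LOW

/-! Project LQ (helper581), package LOW: the statement `S_LOW` of `StmQ.lean`. -/

set_option autoImplicit false

namespace Pool.Agent.U59.LB

theorem t_LOW : Pool.Agent.U581.LB.S_LOW := fun k N n e hk hN hn he => low k N n e hk hN hn he

end Pool.Agent.U59.LB
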